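import Pool.Agent.H34.FS.Targets

/-!
# Row PGH: the pigeonhole principle
-/

set_option autoImplicit false

open Finset Pool.Agent.H32.RQ Pool.Agent.H34.FQ

namespace Pool.Agent.H27.HFS

open Pool.Agent.H34.FS

open Classical in
theorem pf_PGH : T_PGH := by
  intro r N l H Y hY hYH hl
  have hH : 0 < H := lt_of_lt_of_le hY hYH
  set s : Finset (Fin r → ℤ) := Fintype.piFinset fun _ => Finset.Icc (0 : ℤ) N with hs
  have hscard : (s.card : ℝ) = ((N : ℝ) + 1) ^ r := by
    have : s.card = (N + 1) ^ r := by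
      rw [hs, Fintype.card_piFinset]
      simp
    rw [this]
    push_cast
    rfl
  set k : ℕ := ⌊2 * H / Y⌋₊ with hk
  set t : Finset (ℕ × ℕ) := (range (k + 1)) ×ˢ (range (k + 1)) with ht
  have hval : ∀ v ∈ s, ∀ i, |((∑ j, l i j * v j : ℤ) : ℝ)| ≤ H := by
    intro v hv i
    rw [hs, Fintype.mem_piFinset] at hv
    refine le_trans ?_ (hl i)
    push_cast
    refine le_trans (Finset.abs_sum_le_sum_abs _ _) ?_
    rw [Finset.sum_mul]
    refine Finset.sum_le_sum fun j _ => ?_
    rw [abs_mul]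
    refine mul_le_mul_of_nonneg_left ?_ (abs_nonneg _)
    have h1 := Finset.mem_Icc.1 (hv j)
    rw [abs_of_nonneg (by exact_mod_cast h1.1)]
    exact_mod_cast h1.2
  set f : (Fin r → ℤ) → ℕ × ℕ := fun v =>
    (⌊(((∑ j, l 0 j * v j : ℤ) : ℝ) + H) / Y⌋₊, ⌊(((∑ j, l 1 j * v j : ℤ) : ℝ) + H) / Y⌋₊) with hf
  have hcell : ∀ v ∈ s, ∀ i, ⌊(((∑ j, l i j * v j : ℤ) : ℝ) + H) / Y⌋₊ ∈ range (k + 1) := by
    intro v hv i
    rw [Finset.mem_range, Nat.lt_succ_iff, hk]
    apply Nat.floor_le_floor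
    have h1 := (abs_le.1 (hval v hv i)).2
    apply div_le_div_of_nonneg_right _ hY.le
    linarith
  have hmaps : ∀ v ∈ s, f v ∈ t := by
    intro v hv
    rw [ht, Finset.mem_product]
    exact ⟨hcell v hv 0, hcell v hv 1⟩
  have htne : t.Nonempty := ⟨(0, 0), by rw [ht, Finset.mem_product]; simp⟩
  have hk3 : ((k : ℝ) + 1) ≤ 3 * H / Y := by
    have h1 : (k : ℝ) ≤ 2 * H / Y := Nat.floor_le (by positivity)
    have h2 : 1 ≤ H / Y := by
      rw [le_div_iff₀ hY]
      linarith
    have h3 : 3 * H / Y = 2 * H / Y + H / Y := by ring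
    linarith
  have htcard : (t.card : ℝ) ≤ (3 * H / Y) ^ 2 := by
    rw [ht, Finset.card_product, Finset.card_range]
    push_cast
    nlinarith [Nat.cast_nonneg (α := ℝ) k]
  set b : ℝ := (Y / (3 * H)) ^ 2 * ((N : ℝ) + 1) ^ r with hb
  have hb0 : 0 < b := by rw [hb]; positivity
  have hbs : t.card • b ≤ (s.card : ℝ) := by
    rw [nsmul_eq_mul, hscard, hb]
    have h1 : (t.card : ℝ) * ((Y / (3 * H)) ^ 2 * ((N : ℝ) + 1) ^ r) ≤
        (3 * H / Y) ^ 2 * ((Y / (3 * H)) ^ 2 * ((N : ℝ) + 1) ^ r) :=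
      mul_le_mul_of_nonneg_right htcard (by positivity)
    refine h1.trans (le_of_eq ?_)
    rw [← mul_assoc, ← mul_pow]
    have h2 : 3 * H / Y * (Y / (3 * H)) = 1 := by
      field_simp
    rw [h2, one_pow, one_mul]
  obtain ⟨c, -, hc⟩ := Finset.exists_le_card_fiber_of_nsmul_le_card_of_maps_to hmaps htne hbs
  set S := s.filter fun v => f v = c with hS
  have hSne : S.Nonempty := by
    rw [← Finset.card_pos]
    have : (0 : ℝ) < (S.card : ℝ) := lt_of_lt_of_le hb0 hc
    exact_mod_cast this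
  obtain ⟨v₀, hv₀⟩ := hSne
  refine hc.trans ?_
  have hinj : S.card ≤ ((vb r N).filter fun x =>
      ∀ i, |((∑ j, l i j * x j : ℤ) : ℝ)| ≤ Y).card := by
    refine Finset.card_le_card_of_injOn (fun v => v - v₀) ?_ ?_
    · intro v hv
      have hv' : v ∈ S := hv
      rw [hS, Finset.mem_filter] at hv' hv₀
      have hvs := hv'.1
      have hv0s := hv₀.1
      rw [Finset.mem_coe, Finset.mem_filter]
      constructor
      · rw [hs, Fintype.mem_piFinset] at hvs hv0s
        unfold vb
        rw [Fintype.mem_piFinset]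
        intro j
        have h1 := Finset.mem_Icc.1 (hvs j)
        have h2 := Finset.mem_Icc.1 (hv0s j)
        rw [Finset.mem_Icc]
        show -(N : ℤ) ≤ v j - v₀ j ∧ v j - v₀ j ≤ (N : ℤ)
        constructor <;> omega
      · have hfe : f v = f v₀ := by rw [hv'.2, hv₀.2]
        have hi : ∀ i, ⌊(((∑ j, l i j * v j : ℤ) : ℝ) + H) / Y⌋₊ =
            ⌊(((∑ j, l i j * v₀ j : ℤ) : ℝ) + H) / Y⌋₊ := by
          intro i
          fin_cases i
          · exact congrArg Prod.fst hfe
          · exact congrArg Prod.snd hfe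
        intro i
        have hii := hi i
        have hx : 0 ≤ (((∑ j, l i j * v j : ℤ) : ℝ) + H) / Y := by
          have := (abs_le.1 (hval v hvs i)).1
          exact div_nonneg (by linarith) hY.le
        have hy : 0 ≤ (((∑ j, l i j * v₀ j : ℤ) : ℝ) + H) / Y := by
          have := (abs_le.1 (hval v₀ hv0s i)).1
          exact div_nonneg (by linarith) hY.le
        have a1 := Nat.floor_le hx
        have a2 := Nat.lt_floor_add_one ((((∑ j, l i j * v j : ℤ) : ℝ) + H) / Y)
        have a3 := Nat.floor_le hy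
        have a4 := Nat.lt_floor_add_one ((((∑ j, l i j * v₀ j : ℤ) : ℝ) + H) / Y)
        rw [hii] at a1 a2
        have e : ((∑ j, l i j * (v - v₀) j : ℤ) : ℝ) =
            Y * ((((∑ j, l i j * v j : ℤ) : ℝ) + H) / Y -
              (((∑ j, l i j * v₀ j : ℤ) : ℝ) + H) / Y) := by
          have e1 : (∑ j, l i j * (v - v₀) j : ℤ) = ∑ j, l i j * v j - ∑ j, l i j * v₀ j := by
            rw [← Finset.sum_sub_distrib]
            exact Finset.sum_congr rfl fun j _ => by rw [Pi.sub_apply]; ring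
          rw [e1]
          push_cast
          field_simp
          ring
        rw [e, abs_mul, abs_of_pos hY]
        have e2 : |(((∑ j, l i j * v j : ℤ) : ℝ) + H) / Y -
            (((∑ j, l i j * v₀ j : ℤ) : ℝ) + H) / Y| ≤ 1 := by
          rw [abs_le]
          constructor <;> linarith
        nlinarith
    · intro v _ w _ hvw
      have : v - v₀ = w - v₀ := hvw
      exact sub_left_injective this
  exact_mod_cast hinj

end Pool.Agent.H27.HFS
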