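import Pool.Agent.H34.FS.Targets

/-!
# Row POL: a positive proportion of the pairs has a zero
-/

set_option autoImplicit false

open Finset Pool.Agent.H32.RQ Pool.Agent.H34.FQ

namespace Pool.Agent.H27.HFS

open Pool.Agent.H34.FS

open scoped Nat in
open Classical in
theorem pf_POL (hMNL : T_MNL) (hAL1 : T_AL1) (hSPI : T_SPI) (hSPC : T_SPC) : T_POL := by
  intro r F hr
  obtain ⟨C, hC, hA4⟩ := hAL1 r hr
  -- the choice of `w₀`
  obtain ⟨w₀, hw1, hw⟩ : ∃ w₀ : ℕ, 1 ≤ w₀ ∧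
      2 * (C * 4 ^ (2 * (r + 1))) ≤ (w₀ : ℝ) ^ 2 := by
    obtain ⟨m, hm⟩ := exists_nat_ge (2 * (C * 4 ^ (2 * (r + 1))))
    refine ⟨m + 1, by omega, hm.trans ?_⟩
    push_cast
    nlinarith [Nat.cast_nonneg (α := ℝ) m]
  obtain ⟨U, hU⟩ : ∃ U : ℕ, U = (w₀ !) ^ 2 := ⟨_, rfl⟩
  have hU1 : 1 ≤ U := by
    rw [hU]
    exact Nat.one_le_pow _ _ (Nat.factorial_pos _)
  have hUR : (1 : ℝ) ≤ U := by exact_mod_cast hU1
  obtain ⟨ε, hε⟩ : ∃ ε : ℝ, ε = 1 / 4 * (1 / (3 * U)) ^ (2 * (r + 1)) := ⟨_, rfl⟩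
  have hε0 : 0 < ε := by rw [hε]; positivity
  obtain ⟨W₁, K, A₀, hne, hcop, hcount⟩ := hMNL r F 1 w₀ hr ε hε0
  have hVW : Nat.Coprime U W₁ := by
    rw [hU]
    refine Nat.Coprime.pow_left 2 (Nat.coprime_of_dvd fun p hp h1 h2 => ?_)
    have h3 := (hp.dvd_factorial).1 h1
    have h4 := hcop p hp h2
    omega
  obtain ⟨⟨A₁, hA₁⟩, hS2⟩ := hSPC r U hU1
  obtain ⟨A₂, hA₂⟩ := hS2 W₁ hVW
  refine ⟨ε, hε0, A₀ + A₁ + A₂ + 1, fun A hA => ?_⟩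
  have hAR : (1 : ℝ) ≤ A := by
    have : 1 ≤ A := by omega
    exact_mod_cast this
  have hWpos : (0 : ℝ) < W₁ := by
    have : 0 < W₁ := Nat.pos_of_ne_zero hne.out
    exact_mod_cast this
  have hcnt := hcount A (by omega)
  have hQ := hA₁ A (by omega)
  obtain ⟨Q, hQdef⟩ : ∃ Q : ℝ, Q = ((A : ℝ) / U) ^ (2 * (r + 1)) := ⟨_, rfl⟩
  rw [← hQdef] at hQ
  obtain ⟨E, hE⟩ : ∃ E : Finset (Fin 2 → Fin (r + 1) → ZMod W₁), E =
    (Finset.univ.filter fun L : Fin 2 → Fin (r + 1) → ZMod W₁ => 2 * aL F W₁ L < W₁ ^ (r - 2)) :=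
    ⟨_, rfl⟩
  have hE4 : (E.card : ℝ) * (w₀ : ℝ) ^ 2 ≤ C * (W₁ : ℝ) ^ (2 * (r + 1)) := by
    rw [hE]
    exact hA4 F W₁ w₀ hw1 hcop
  have hZ := hA₂ A (by omega) E
  have hmemE : ∀ L : Fin 2 → Fin (r + 1) → ZMod W₁, L ∈ E ↔ 2 * aL F W₁ L < W₁ ^ (r - 2) := by
    intro L
    rw [hE, mem_filter]
    exact ⟨fun h => h.2, fun h => ⟨mem_univ _, h⟩⟩
  -- the first set
  obtain ⟨Z, hZdef⟩ : ∃ Z : Finset (Fin 2 → Fin (r + 1) → ℤ),
    Z = (sL r U A).filter fun L => cL (ZMod W₁) L ∈ E := ⟨_, rfl⟩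
  have hZ' : (Z.card : ℝ) * (W₁ : ℝ) ^ (2 * (r + 1)) ≤
      (4 * A / U) ^ (2 * (r + 1)) * E.card := by
    rw [hZdef]
    exact hZ
  have hZQ : (Z.card : ℝ) ≤ 1 / 2 * Q := by
    have h8 : (4 * (A : ℝ) / U) ^ (2 * (r + 1)) = 4 ^ (2 * (r + 1)) * Q := by
      rw [hQdef, ← mul_pow]
      congr 1
      ring
    have hQ0 : 0 ≤ Q := by rw [hQdef]; positivity
    have hW : (0 : ℝ) < (W₁ : ℝ) ^ (2 * (r + 1)) := by positivity
    have hw0 : (0 : ℝ) < (w₀ : ℝ) ^ 2 := by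
      have : (1 : ℝ) ≤ w₀ := by exact_mod_cast hw1
      positivity
    have h9 : ((Z.card : ℝ) * (w₀ : ℝ) ^ 2) * (W₁ : ℝ) ^ (2 * (r + 1)) ≤
        (4 ^ (2 * (r + 1)) * Q * C) * (W₁ : ℝ) ^ (2 * (r + 1)) := by
      calc ((Z.card : ℝ) * (w₀ : ℝ) ^ 2) * (W₁ : ℝ) ^ (2 * (r + 1))
          = ((Z.card : ℝ) * (W₁ : ℝ) ^ (2 * (r + 1))) * (w₀ : ℝ) ^ 2 := by ring
        _ ≤ ((4 * A / U) ^ (2 * (r + 1)) * E.card) * (w₀ : ℝ) ^ 2 :=
            mul_le_mul_of_nonneg_right hZ' hw0.le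
        _ = (4 ^ (2 * (r + 1)) * Q) * ((E.card : ℝ) * (w₀ : ℝ) ^ 2) := by rw [h8]; ring
        _ ≤ (4 ^ (2 * (r + 1)) * Q) * (C * (W₁ : ℝ) ^ (2 * (r + 1))) :=
            mul_le_mul_of_nonneg_left hE4 (by positivity)
        _ = _ := by ring
    have h10 : (Z.card : ℝ) * (w₀ : ℝ) ^ 2 ≤ 4 ^ (2 * (r + 1)) * Q * C :=
      le_of_mul_le_mul_right h9 hW
    have h11 : 4 ^ (2 * (r + 1)) * Q * C ≤ 1 / 2 * Q * (w₀ : ℝ) ^ 2 := by
      have := mul_le_mul_of_nonneg_right hw hQ0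
      nlinarith
    exact le_of_mul_le_mul_right (h10.trans h11) hw0
  -- the second set
  obtain ⟨N, hNdef⟩ : ∃ N : Finset (Fin 2 → Fin (r + 1) → ℤ),
    N = ((bL r A).filter fun L => (∀ p : ℕ, p.Prime → p ≤ w₀ → RL F 1 p L) ∧
      W₁ ^ (r - 2) ≤ 2 * aL F W₁ (cL (ZMod W₁) L) ∧ ¬ SZF F K A L) := ⟨_, rfl⟩
  have h3A : (2 * (A : ℝ) + 1) ^ (2 * (r + 1)) ≤ (3 * (A : ℝ)) ^ (2 * (r + 1)) := by
    gcongr
    linarith
  have hεA : ε * (2 * (A : ℝ) + 1) ^ (2 * (r + 1)) ≤ 1 / 4 * Q := by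
    calc ε * (2 * (A : ℝ) + 1) ^ (2 * (r + 1)) ≤ ε * (3 * (A : ℝ)) ^ (2 * (r + 1)) :=
          mul_le_mul_of_nonneg_left h3A hε0.le
      _ = 1 / 4 * Q := by
          rw [hε, hQdef, mul_assoc, ← mul_pow]
          congr 2
          field_simp
  have hNQ : (N.card : ℝ) ≤ 1 / 4 * Q := by
    rw [hNdef]
    exact hcnt.trans hεA
  -- the target set
  obtain ⟨Tg, hTdef⟩ : ∃ Tg : Finset (Fin 2 → Fin (r + 1) → ℤ),
    Tg = ((bL r A).filter fun L => QZ (gg F L)) := ⟨_, rfl⟩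
  have hsub : sL r U A ⊆ (Z ∪ N) ∪ Tg := by
    intro L hL
    have hLb : L ∈ bL r A := by
      have hL' := hL
      unfold sL at hL'
      rw [mem_filter] at hL'
      exact hL'.1
    rw [mem_union, mem_union]
    by_cases h1 : cL (ZMod W₁) L ∈ E
    · left; left
      rw [hZdef, mem_filter]
      exact ⟨hL, h1⟩
    · by_cases h2 : SZF F K A L
      · right
        rw [hTdef, mem_filter]
        obtain ⟨c, x, hc1, hcK, hx, -⟩ := h2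
        refine ⟨hLb, cv (c : ℤ) x, ?_, hx⟩
        intro h0
        have h3 : (c : ℤ) = 0 := congrFun h0 0
        omega
      · left; right
        rw [hNdef, mem_filter]
        refine ⟨hLb, ?_, ?_, h2⟩
        · intro p hp hpw
          refine hSPI r F U A p L (by omega) hL hp ?_
          rw [hU]
          exact pow_dvd_pow_of_dvd ((hp.dvd_factorial).2 hpw) 2
        · rw [hmemE] at h1
          exact not_lt.1 h1
  have hcard : ((sL r U A).card : ℝ) ≤ Z.card + N.card + Tg.card := by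
    have h1 := Finset.card_le_card hsub
    have h2 := Finset.card_union_le (Z ∪ N) Tg
    have h3 := Finset.card_union_le Z N
    have h4 : (sL r U A).card ≤ Z.card + N.card + Tg.card := by omega
    exact_mod_cast h4
  rw [← hTdef]
  linarith

end Pool.Agent.H27.HFS
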